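import Pool.Agent.H37.CP.Targets

/-!
# The formula with wide clauses (row WID of cpe_modules, MP_c62aed_lc)
-/

namespace Pool.Agent.H4.CPE

open Finset Pool.Agent.H37.CP
open Pool.Agent.H1.LP (Clause viol Loc Sys supp ip)

/-- variables -/
abbrev WVar (B l : ℕ) : Type := (Fin B × Fin l) ⊕ (Fin B × (Fin l → Bool))

/-- positions of literals -/
abbrev WPos (l : ℕ) : Type := (Fin 3 × Fin l) ⊕ Fin 3

/-- the variables, enumerated -/
noncomputable def eWV (B l : ℕ) : WVar B l ≃ Fin (B * l + B * 2 ^ l) :=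
  (Equiv.sumCongr finProdFinEquiv
    (((Equiv.refl (Fin B)).prodCongr
      (Fintype.equivFinOfCardEq (α := Fin l → Bool) (n := 2 ^ l) (by simp))).trans
        finProdFinEquiv)).trans finSumFinEquiv

/-- the positions, enumerated -/
def eWP (l : ℕ) : Fin (3 * l + 3) ≃ WPos l :=
  (finSumFinEquiv (m := 3 * l) (n := 3)).symm.trans
    (Equiv.sumCongr finProdFinEquiv.symm (Equiv.refl _))

theorem eWP_isLeft (l : ℕ) (k : Fin (3 * l + 3)) :
    (eWP l k).isLeft = decide (k.val < 3 * l) := by
  unfold eWP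
  refine Fin.addCases (fun i => ?_) (fun i => ?_) k
  · simp
  · simp

/-- the three elements of a set of card 3 -/
theorem exists_te {B : ℕ} (T : Finset (Fin B)) (hT : T.card = 3) (A : Fin B → ZMod 2)
    (hA : ∀ j, A j = if j ∈ T then 1 else 0) :
    ∃ te : Fin 3 → Fin B, Function.Injective te ∧ ∀ z : Fin B → ZMod 2,
      ip A z = ∑ j, z (te j) := by
  refine ⟨T.orderEmbOfFin hT, (T.orderEmbOfFin hT).injective, fun z => ?_⟩
  have h1 : ip A z = ∑ j ∈ T, z j := by
    unfold ip
    rw [← Finset.sum_filter_add_sum_filter_not univ (fun j => j ∈ T)]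
    have h2 : ∑ x with x ∉ T, A x * z x = 0 := by
      refine Finset.sum_eq_zero fun x hx => ?_
      rw [hA, if_neg (Finset.mem_filter.1 hx).2, zero_mul]
    rw [h2, add_zero]
    have h3 : univ.filter (fun j => j ∈ T) = T := by ext; simp
    rw [h3]
    refine Finset.sum_congr rfl fun x hx => ?_
    rw [hA, if_pos hx, one_mul]
  rw [h1]
  have h4 : T = univ.image (T.orderEmbOfFin hT) := by
    rw [Finset.image_orderEmbOfFin_univ] <;> assumption
  conv_lhs => rw [h4]
  rw [Finset.sum_image (fun a _ b _ h => (T.orderEmbOfFin hT).injective h)]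

/-- the literals of the clause of `(r, v, b)` -/
def wlit {B l : ℕ} (te : Fin 3 → Fin B) (v : Fin 3 → (Fin l → Bool)) (b : Fin 3 → ZMod 2) :
    WPos l → WVar B l × Bool
  | Sum.inl (j, k) => (Sum.inl (te j, k), !(v j k))
  | Sum.inr j => (Sum.inr (te j, v j), !(decide (b j = 1)))

/-- the value of a variable at `(y, x)` -/
def wval {B l : ℕ} (y : Fin B → (Fin l → Bool) → ZMod 2) (x : Fin B → (Fin l → Bool)) :
    WVar B l → Bool
  | Sum.inl (i, k) => x i k
  | Sum.inr (i, u) => decide (y i u = 1)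

theorem wlit_inj {B l : ℕ} (te : Fin 3 → Fin B) (hte : Function.Injective te)
    (v : Fin 3 → (Fin l → Bool)) (b : Fin 3 → ZMod 2) :
    Function.Injective (fun k => (wlit te v b k).1) := by
  rintro (⟨j, k⟩ | j) (⟨j', k'⟩ | j') h
  · simp only [wlit, Sum.inl.injEq, Prod.mk.injEq] at h
    rw [hte h.1, h.2]
  · simp [wlit] at h
  · simp [wlit] at h
  · simp only [wlit, Sum.inr.injEq, Prod.mk.injEq] at h
    rw [hte h.1]

theorem wlit_isLeft {B l : ℕ} (te : Fin 3 → Fin B) (v : Fin 3 → (Fin l → Bool))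
    (b : Fin 3 → ZMod 2) (k : WPos l) : (wlit te v b k).1.isLeft = k.isLeft := by
  rcases k with (⟨j, k⟩ | j) <;> rfl

theorem zmod2_eq_of {a b : ZMod 2} (h : decide (a = 1) = decide (b = 1)) : a = b := by
  revert h
  revert a b
  decide

theorem wid_last {B l : ℕ} (te : Fin 3 → Fin B) (v : Fin 3 → (Fin l → Bool))
    (b : Fin 3 → ZMod 2) (y : Fin B → (Fin l → Bool) → ZMod 2) (x : Fin B → (Fin l → Bool))
    (h : ∀ k, wval y x (wlit te v b k).1 ≠ (wlit te v b k).2) :
    ∑ j, y (te j) (x (te j)) = ∑ j, b j := by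
  have h1 : ∀ j, x (te j) = v j := by
    intro j
    funext k
    have h2 := h (Sum.inl (j, k))
    simp only [wlit, wval] at h2
    cases h3 : x (te j) k <;> cases h4 : v j k <;> simp_all
  refine Finset.sum_congr rfl fun j _ => ?_
  have h2 := h (Sum.inr j)
  simp only [wlit, wval] at h2
  rw [h1]
  apply zmod2_eq_of
  cases h3 : decide (y (te j) (v j) = 1) <;> cases h4 : decide (b j = 1) <;> simp_all

theorem pf_WID : S_WID := by
  classical
  intro B R l T A be hT hA hns
  have hte : ∀ r, ∃ te : Fin 3 → Fin B, Function.Injective te ∧ ∀ z : Fin B → ZMod 2,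
      ip (A r) z = ∑ j, z (te j) := fun r => exists_te (T r) (hT r) (A r) (hA r)
  choose te hte1 hte2 using hte
  let I : Type := {p : Fin R × (Fin 3 → (Fin l → Bool)) × (Fin 3 → ZMod 2) //
    ∑ j, p.2.2 j ≠ be p.1}
  let eI : I ≃ Fin (Fintype.card I) := Fintype.equivFin I
  let L : I → WPos l → WVar B l × Bool := fun p => wlit (te p.1.1) p.1.2.1 p.1.2.2
  let f0 : WVar B l → (Fin B → (Fin l → Bool) → ZMod 2) → Bool := fun w y =>
    Sum.elim (fun _ => false) (fun q => decide (y q.1 q.2 = 1)) w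
  let g0 : WVar B l → (Fin B → (Fin l → Bool)) → Bool := fun w x =>
    Sum.elim (fun q => x q.1 q.2) (fun _ => false) w
  have hasg : ∀ (y : Fin B → (Fin l → Bool) → ZMod 2) (x : Fin B → (Fin l → Bool))
      (w : WVar B l),
      asg (fun v => ((eWV B l).symm v).isLeft) (fun v => f0 ((eWV B l).symm v))
        (fun v => g0 ((eWV B l).symm v)) y x (eWV B l w) = wval y x w := by
    intro y x w
    simp only [asg, Equiv.symm_apply_apply]
    rcases w with (⟨i, k⟩ | ⟨i, u⟩) <;> simp [f0, g0, wval]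
  refine ⟨Fintype.card I, fun i k => (eWV B l (L (eI.symm i) (eWP l k)).1,
      (L (eI.symm i) (eWP l k)).2), fun v => ((eWV B l).symm v).isLeft,
    fun v => f0 ((eWV B l).symm v), fun v => g0 ((eWV B l).symm v),
    fun i => (eI.symm i).1.1, ?_, ?_, ?_, ?_, ?_⟩
  · calc Fintype.card I ≤ Fintype.card (Fin R × (Fin 3 → (Fin l → Bool)) × (Fin 3 → ZMod 2)) :=
        Fintype.card_subtype_le _
      _ = R * ((2 ^ l) ^ 3 * 2 ^ 3) := by
        simp [Fintype.card_prod, ZMod.card]
      _ = R * 8 ^ (l + 1) := by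
        have h8 : (8 : ℕ) = 2 ^ 3 := by norm_num
        rw [h8, ← pow_mul, ← pow_mul, ← pow_add]
        congr 2
        ring
      _ ≤ R * 8 ^ (l + 1) := le_rfl
  · intro i k k' h
    have h1 := (eWV B l).injective h
    exact (eWP l).injective (wlit_inj _ (hte1 _) _ _ h1)
  · intro i k
    simp only [Equiv.symm_apply_apply]
    rw [← eWP_isLeft]
    exact wlit_isLeft _ _ _ _
  · intro vv
    let x : Fin B → (Fin l → Bool) := fun i k => vv (eWV B l (Sum.inl (i, k)))
    let z : Fin B → ZMod 2 := fun i => if vv (eWV B l (Sum.inr (i, x i))) = true then 1 else 0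
    obtain ⟨r, hr⟩ := hns z
    rw [hte2] at hr
    let p : I := ⟨(r, fun j => x (te r j), fun j => z (te r j)), hr⟩
    refine ⟨eI p, fun k => ?_⟩
    simp only [Equiv.symm_apply_apply]
    rcases eWP l k with (⟨j, k'⟩ | j)
    · show vv (eWV B l (Sum.inl (te r j, k'))) ≠ !(vv (eWV B l (Sum.inl (te r j, k'))))
      cases vv (eWV B l (Sum.inl (te r j, k'))) <;> simp
    · show vv (eWV B l (Sum.inr (te r j, x (te r j)))) ≠
        !(decide ((if vv (eWV B l (Sum.inr (te r j, x (te r j)))) = true then (1 : ZMod 2)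
          else 0) = 1))
      cases vv (eWV B l (Sum.inr (te r j, x (te r j)))) <;> simp
  · intro i y x h
    rw [hte2]
    have h1 : ∑ j, y (te (eI.symm i).1.1 j) (x (te (eI.symm i).1.1 j)) =
        ∑ j, (eI.symm i).1.2.2 j := by
      refine wid_last (te (eI.symm i).1.1) (eI.symm i).1.2.1 (eI.symm i).1.2.2 y x fun k => ?_
      have h2 := h ((eWP l).symm k)
      simp only [Equiv.apply_symm_apply] at h2
      rw [hasg] at h2
      exact h2
    simp only
    rw [h1]
    exact (eI.symm i).2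

end Pool.Agent.H4.CPE
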